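import Mathlib

/-!
Definitions: strict quasi-Lindelöf spaces and the piecewise weak Lindelöf degree for closed sets.
-/

open Cardinal

namespace Pool.Agent.Lib_MP_a1e9e0_gt

universe u

/-- `X` is strict quasi-Lindelöf: for every closed `F`, every family `U` of open sets covering
`F` and every countable decomposition `(D n)` of `U` there are countable `V n ⊆ D n` such that
`F` is covered by the closures of the unions `⋃₀ (V n)`. -/
def StrictQuasiLindelof (X : Type u) [TopologicalSpace X] : Prop :=
  ∀ F : Set X, IsClosed F → ∀ U : Set (Set X), (∀ W ∈ U, IsOpen W) → F ⊆ ⋃₀ U →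
    ∀ D : ℕ → Set (Set X), (⋃ n, D n) = U →
      ∃ V : ℕ → Set (Set X), (∀ n, V n ⊆ D n ∧ (V n).Countable) ∧
        F ⊆ ⋃ n, closure (⋃₀ (V n))

/-- The property in the definition of the piecewise weak Lindelöf degree for closed sets:
for every closed `F`, every family `U` of open sets covering `F` and every decomposition
`(D i)` of `U`, with an index type `I` of any size, there are `V i ⊆ D i` of cardinality
at most `κ` such that `F` is covered by the closures of the unions `⋃₀ (V i)`. -/
def PwLcProperty (X : Type u) [TopologicalSpace X] (κ : Cardinal.{u}) : Prop :=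
  ∀ F : Set X, IsClosed F → ∀ U : Set (Set X), (∀ W ∈ U, IsOpen W) → F ⊆ ⋃₀ U →
    ∀ (I : Type u) (D : I → Set (Set X)), (⋃ i, D i) = U →
      ∃ V : I → Set (Set X), (∀ i, V i ⊆ D i ∧ #(V i) ≤ κ) ∧
        F ⊆ ⋃ i, closure (⋃₀ (V i))

/-- The piecewise weak Lindelöf degree for closed sets `pwL_c(X)`: the least cardinal `κ`
with `PwLcProperty X κ`. -/
noncomputable def pwLc (X : Type u) [TopologicalSpace X] : Cardinal.{u} :=
  sInf {κ | PwLcProperty X κ}

end Pool.Agent.Lib_MP_a1e9e0_gt
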