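import Mathlib
import Pool.Agent.Lib_MP_a1e9e0_gt.Defs

/-!
A Hausdorff strict quasi-Lindelöf space whose piecewise weak Lindelöf degree for closed sets
is larger than the continuum: the proof.
-/

open Set Topology TopologicalSpace
open Cardinal hiding univ

namespace Pool.Agent.Lib_MP_a1e9e0_gt

universe u

lemma pwLcProperty_nonempty (X : Type u) [TopologicalSpace X] :
    {κ | PwLcProperty X κ}.Nonempty := by
  refine ⟨#(Set X), ?_⟩
  intro F _ U _ hcov I D hD
  refine ⟨D, fun i => ⟨Subset.rfl, mk_set_le _⟩, ?_⟩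
  intro x hx
  obtain ⟨W, hW, hxW⟩ := hcov hx
  rw [← hD] at hW
  obtain ⟨i, hi⟩ := mem_iUnion.1 hW
  exact mem_iUnion.2 ⟨i, subset_closure ⟨W, hi, hxW⟩⟩

lemma PwLcProperty.mono {X : Type u} [TopologicalSpace X] {κ μ : Cardinal.{u}}
    (h : PwLcProperty X κ) (hκ : κ ≤ μ) : PwLcProperty X μ := by
  intro F hF U hU hcov I D hD
  obtain ⟨V, hV, hFV⟩ := h F hF U hU hcov I D hD
  exact ⟨V, fun i => ⟨(hV i).1, (hV i).2.trans hκ⟩, hFV⟩

lemma lt_pwLc {X : Type u} [TopologicalSpace X] {κ : Cardinal.{u}}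
    (h : ¬ PwLcProperty X κ) : κ < pwLc X := by
  by_contra hlt
  exact h ((csInf_mem (pwLcProperty_nonempty X) : PwLcProperty X (pwLc X)).mono (not_lt.1 hlt))

/-! ### The space -/

/-- The underlying set: the points `pt c x` form `D × K`, the points `lim s` are extra. -/
inductive Pt (D K S : Type) : Type
  | pt : D → K → Pt D K S
  | lim : S → Pt D K S

section Space

variable {D K S : Type} [TopologicalSpace K] (v : S → Ultrafilter D) (t : S → K)

/-- The topology. -/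
@[instance_reducible]
def space : TopologicalSpace (Pt D K S) where
  IsOpen W := (∀ c, IsOpen {x | Pt.pt c x ∈ W}) ∧
    ∀ s, Pt.lim s ∈ W → {c | ∀ x, Pt.pt c x ∈ W} ∈ v s ∧
      ∃ O : Set K, IsOpen O ∧ t s ∈ O ∧ {c | ¬ ∀ x ∈ O, Pt.pt c x ∈ W}.Countable
  isOpen_univ := by
    have h : {c : D | ∀ x : K, (Pt.pt c x : Pt D K S) ∈ (Set.univ : Set (Pt D K S))} =
        Set.univ := by
      ext; simp
    refine ⟨fun c => by simp, fun s _ => ⟨?_, univ, isOpen_univ, mem_univ _, by simp⟩⟩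
    rw [h]
    exact Filter.univ_mem
  isOpen_inter := by
    rintro W W' ⟨h1, h2⟩ ⟨h1', h2'⟩
    refine ⟨fun c => (h1 c).inter (h1' c), ?_⟩
    rintro s ⟨hs, hs'⟩
    obtain ⟨hv, O, hO, hsO, hc⟩ := h2 s hs
    obtain ⟨hv', O', hO', hsO', hc'⟩ := h2' s hs'
    refine ⟨?_, O ∩ O', hO.inter hO', ⟨hsO, hsO'⟩, (hc.union hc').mono ?_⟩
    · filter_upwards [hv, hv'] with c hc hc' x using ⟨hc x, hc' x⟩
    · intro c hcc
      by_contra hcon
      simp only [mem_union, mem_ofPred_eq, not_or, not_not] at hcon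
      exact hcc fun x hx => ⟨hcon.1 x hx.1, hcon.2 x hx.2⟩
  isOpen_sUnion := by
    intro 𝒲 h𝒲
    refine ⟨fun c => ?_, ?_⟩
    · have : {x | Pt.pt c x ∈ ⋃₀ 𝒲} = ⋃ W ∈ 𝒲, {x | (Pt.pt c x : Pt D K S) ∈ W} := by
        ext x; simp
      rw [this]
      exact isOpen_biUnion fun W hW => (h𝒲 W hW).1 c
    · rintro s ⟨W, hW, hsW⟩
      obtain ⟨hv, O, hO, hsO, hc⟩ := (h𝒲 W hW).2 s hsW
      refine ⟨?_, O, hO, hsO, hc.mono ?_⟩
      · filter_upwards [hv] with c hc x using ⟨W, hW, hc x⟩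
      · intro c hcc hcon
        exact hcc fun x hx => ⟨W, hW, hcon x hx⟩

lemma isOpen_iff (W : Set (Pt D K S)) : IsOpen[space v t] W ↔
    (∀ c, IsOpen {x | Pt.pt c x ∈ W}) ∧
    ∀ s, Pt.lim s ∈ W → {c | ∀ x, Pt.pt c x ∈ W} ∈ v s ∧
      ∃ O : Set K, IsOpen O ∧ t s ∈ O ∧ {c | ¬ ∀ x ∈ O, Pt.pt c x ∈ W}.Countable :=
  Iff.rfl

/-- The part `{c} × O`. -/
def box (c : D) (O : Set K) : Set (Pt D K S) := {z | ∃ x ∈ O, z = Pt.pt c x}

lemma isOpen_box (c : D) {O : Set K} (hO : IsOpen O) :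
    IsOpen[space v t] (box c O : Set (Pt D K S)) := by
  rw [isOpen_iff]
  refine ⟨fun c' => ?_, ?_⟩
  · by_cases h : c' = c
    · subst h
      simpa [box] using hO
    · have : {x | (Pt.pt c' x : Pt D K S) ∈ box c O} = ∅ := by
        ext x; simp [box, h]
      rw [this]; exact isOpen_empty
  · rintro s ⟨x, _, hx⟩
    cases hx

/-- The basic neighbourhoods of the points `lim s`. -/
def nb (s : S) (A N : Set D) (O : Set K) : Set (Pt D K S) :=
  {z | z = Pt.lim s ∨ ∃ c x, z = Pt.pt c x ∧ (c ∈ A ∨ (c ∉ N ∧ x ∈ O))}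

omit [TopologicalSpace K] in
lemma pt_mem_nb {s : S} {A N : Set D} {O : Set K} {c : D} {x : K} :
    (Pt.pt c x : Pt D K S) ∈ nb s A N O ↔ c ∈ A ∨ (c ∉ N ∧ x ∈ O) := by
  constructor
  · rintro (h | ⟨c', x', h, h'⟩)
    · cases h
    · cases h; exact h'
  · intro h; exact Or.inr ⟨c, x, rfl, h⟩

omit [TopologicalSpace K] in
lemma lim_mem_nb {s s' : S} {A N : Set D} {O : Set K} :
    (Pt.lim s' : Pt D K S) ∈ nb s A N O ↔ s' = s := by
  constructor
  · rintro (h | ⟨c', x', h, h'⟩)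
    · cases h; rfl
    · cases h
  · rintro rfl; exact Or.inl rfl

lemma isOpen_nb (s : S) {A N : Set D} {O : Set K} (hA : A ∈ v s) (hN : N.Countable)
    (hO : IsOpen O) (hs : t s ∈ O) : IsOpen[space v t] (nb s A N O : Set (Pt D K S)) := by
  rw [isOpen_iff]
  refine ⟨fun c => ?_, ?_⟩
  · simp only [pt_mem_nb]
    by_cases hcA : c ∈ A
    · simp [hcA]
    · by_cases hcN : c ∈ N
      · simp [hcA, hcN]
      · simpa [hcA, hcN] using hO
  · intro s' hs'
    rw [lim_mem_nb] at hs'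
    subst hs'
    refine ⟨?_, O, hO, hs, hN.mono ?_⟩
    · filter_upwards [hA] with c hc x
      exact pt_mem_nb.2 (Or.inl hc)
    · intro c hc
      by_contra hcN
      exact hc fun x hx => pt_mem_nb.2 (Or.inr ⟨hcN, hx⟩)

/-- The space is Hausdorff. -/
lemma t2 [T2Space K] (hinj : Function.Injective v) (tinj : Function.Injective t)
    (hfree : ∀ s c, {c}ᶜ ∈ v s) (hctb : ∀ s, ∃ A ∈ v s, A.Countable) :
    @T2Space (Pt D K S) (space v t) := by
  let _ := space (K := K) v t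
  have key : ∀ (c : D) (x : K) (s : S), ∃ u w : Set (Pt D K S), IsOpen u ∧ IsOpen w ∧
      Pt.pt c x ∈ u ∧ Pt.lim s ∈ w ∧ Disjoint u w := by
    intro c x s
    refine ⟨box c univ, nb s {c}ᶜ {c} univ, isOpen_box v t c isOpen_univ,
      isOpen_nb v t s (hfree s c) (countable_singleton c) isOpen_univ (mem_univ _),
      ⟨x, mem_univ _, rfl⟩, lim_mem_nb.2 rfl, ?_⟩
    rw [Set.disjoint_left]
    rintro _ ⟨y, _, rfl⟩ h
    rw [pt_mem_nb] at h
    simp at h
  constructor
  intro z z' hne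
  rcases z with ⟨c, x⟩ | s <;> rcases z' with ⟨c', x'⟩ | s'
  · by_cases hc : c = c'
    · subst hc
      have hx : x ≠ x' := fun h => hne (by rw [h])
      obtain ⟨O, O', hO, hO', hxO, hxO', hd⟩ := t2_separation hx
      refine ⟨box c O, box c O', isOpen_box v t c hO, isOpen_box v t c hO', ⟨x, hxO, rfl⟩,
        ⟨x', hxO', rfl⟩, ?_⟩
      rw [Set.disjoint_left]
      rintro _ ⟨y, hy, rfl⟩ ⟨y', hy', h⟩
      cases h
      exact Set.disjoint_left.1 hd hy hy'
    · refine ⟨box c univ, box c' univ, isOpen_box v t c isOpen_univ,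
        isOpen_box v t c' isOpen_univ, ⟨x, mem_univ _, rfl⟩, ⟨x', mem_univ _, rfl⟩, ?_⟩
      rw [Set.disjoint_left]
      rintro _ ⟨y, hy, rfl⟩ ⟨y', hy', h⟩
      cases h
      exact hc rfl
  · exact key c x s'
  · obtain ⟨u, w, hu, hw, h1, h2, hd⟩ := key c' x' s
    exact ⟨w, u, hw, hu, h2, h1, hd.symm⟩
  · have hs : s ≠ s' := fun h => hne (by rw [h])
    have hv : v s ≠ v s' := fun h => hs (hinj h)
    have : ∃ B, B ∈ v s ∧ Bᶜ ∈ v s' := by
      by_contra hcon
      push Not at hcon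
      apply hv
      apply Ultrafilter.coe_injective
      refine (Ultrafilter.unique (v s) (g := v s') ?_).symm
      intro B hB
      by_contra hB'
      exact hcon B hB (Ultrafilter.compl_mem_iff_notMem.2 hB')
    obtain ⟨B, hB, hB'⟩ := this
    obtain ⟨A, hA, hAc⟩ := hctb s
    obtain ⟨A', hA', hAc'⟩ := hctb s'
    obtain ⟨O, O', hO, hO', hsO, hsO', hd⟩ := t2_separation (tinj.ne hs)
    have hNc : ((A ∩ B) ∪ (A' ∩ Bᶜ)).Countable :=
      (hAc.mono inter_subset_left).union (hAc'.mono inter_subset_left)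
    refine ⟨nb s (A ∩ B) ((A ∩ B) ∪ (A' ∩ Bᶜ)) O, nb s' (A' ∩ Bᶜ) ((A ∩ B) ∪ (A' ∩ Bᶜ)) O',
      isOpen_nb v t s (Filter.inter_mem hA hB) hNc hO hsO,
      isOpen_nb v t s' (Filter.inter_mem hA' hB') hNc hO' hsO',
      lim_mem_nb.2 rfl, lim_mem_nb.2 rfl, ?_⟩
    rw [Set.disjoint_left]
    intro z hz hz'
    rcases z with ⟨c, x⟩ | r
    · rw [pt_mem_nb] at hz hz'
      rcases hz with hz | ⟨hz, hx⟩ <;> rcases hz' with hz' | ⟨hz', hx'⟩
      · exact hz'.2 hz.2
      · exact hz' (Or.inl hz)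
      · exact hz (Or.inr hz')
      · exact Set.disjoint_left.1 hd hx hx'
    · rw [lim_mem_nb] at hz hz'
      exact hs (hz.symm.trans hz')

/-- In a separable space every family of open sets has a countable subfamily whose union is
dense in the union of the family. -/
lemma exists_countable_dense_subfamily [SeparableSpace K] (T : Set S) (O : S → Set K)
    (hO : ∀ s ∈ T, IsOpen (O s)) :
    ∃ T' ⊆ T, T'.Countable ∧ ∀ s ∈ T, O s ⊆ closure (⋃ r ∈ T', O r) := by
  classical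
  obtain ⟨Q, hQc, hQd⟩ := TopologicalSpace.exists_countable_dense K
  let P : Set K := {q | q ∈ Q ∧ ∃ s ∈ T, q ∈ O s}
  have hP : P.Countable := hQc.mono fun q hq => hq.1
  have hch : ∀ q : P, ∃ s ∈ T, (q : K) ∈ O s := fun q => q.2.2
  choose g hgT hg using hch
  have : Countable P := hP.to_subtype
  refine ⟨range g, ?_, countable_range g, ?_⟩
  · rintro _ ⟨q, rfl⟩
    exact hgT q
  · intro s hs x hx
    rw [mem_closure_iff]
    intro W hW hxW
    obtain ⟨q, hq, hqQ⟩ := hQd.inter_open_nonempty (W ∩ O s) (hW.inter (hO s hs)) ⟨x, hxW, hx⟩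
    refine ⟨q, hq.1, ?_⟩
    have hqP : q ∈ P := ⟨hqQ, s, hs, hq.2⟩
    exact mem_biUnion (mem_range_self (⟨q, hqP⟩ : P)) (hg ⟨q, hqP⟩)

/-- The space is strict quasi-Lindelöf. -/
lemma sql [CompactSpace K] [SeparableSpace K] [Uncountable D]
    (hhit : ∀ C : Set D, C.Infinite → ∀ (x : K) (O : ℕ → Set K),
      (∀ n, IsOpen (O n) ∧ x ∈ O n) → ∃ s, C ∈ v s ∧ ∀ n, t s ∈ O n) :
    @StrictQuasiLindelof (Pt D K S) (space v t) := by
  classical
  let _ := space (K := K) v t
  intro F hF U hU hcov Dn hDn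
  -- data for the limit points in `F`
  have hdata : ∀ s, Pt.lim s ∈ F → ∃ (n : ℕ) (W : Set (Pt D K S)) (O : Set K), W ∈ Dn n ∧
      Pt.lim s ∈ W ∧ IsOpen O ∧ t s ∈ O ∧ {c | ¬ ∀ x ∈ O, Pt.pt c x ∈ W}.Countable := by
    intro s hs
    obtain ⟨W, hW, hsW⟩ := hcov hs
    have hWo : IsOpen W := hU W hW
    rw [← hDn] at hW
    obtain ⟨n, hn⟩ := mem_iUnion.1 hW
    obtain ⟨-, O, hO, hsO, hc⟩ := ((isOpen_iff v t W).1 hWo).2 s hsW
    exact ⟨n, W, O, hn, hsW, hO, hsO, hc⟩
  choose! nn W O hWD hsW hO hsO hctb using hdata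
  -- countable subfamilies
  have hsub := fun n : ℕ => exists_countable_dense_subfamily
    ({s | Pt.lim s ∈ F ∧ nn s = n}) O (fun s hs => hO s hs.1)
  choose T hTsub hTc hTd using hsub
  have hTF : ∀ n, ∀ s ∈ T n, Pt.lim s ∈ F ∧ nn s = n := fun n s hs => hTsub n hs
  -- the exceptional countable set
  let N : Set D := ⋃ n, ⋃ s ∈ T n, {c | ¬ ∀ x ∈ O s, Pt.pt c x ∈ W s}
  have hN : N.Countable := countable_iUnion fun n =>
    (hTc n).biUnion fun s hs => hctb s (hTF n s hs).1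
  let V1 : ℕ → Set (Set (Pt D K S)) := fun n => W '' T n
  have hclaim1 : ∀ s, Pt.lim s ∈ F → Pt.lim s ∈ closure (⋃₀ V1 (nn s)) := by
    intro s hs
    rw [mem_closure_iff]
    intro G hG hsG
    obtain ⟨-, O', hO', hsO', hc'⟩ := ((isOpen_iff v t G).1 hG).2 s hsG
    have h1 : t s ∈ closure (⋃ r ∈ T (nn s), O r) := hTd (nn s) s ⟨hs, rfl⟩ (hsO s hs)
    obtain ⟨x, hxO', hx⟩ := mem_closure_iff.1 h1 O' hO' hsO'
    simp only [mem_iUnion, exists_prop] at hx
    obtain ⟨r, hr, hxr⟩ := hx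
    have hcount : ({c | ¬ ∀ x ∈ O', Pt.pt c x ∈ G} ∪
        {c | ¬ ∀ x ∈ O r, Pt.pt c x ∈ W r}).Countable :=
      hc'.union (hctb r (hTF _ r hr).1)
    obtain ⟨c, hc⟩ : ∃ c, c ∉ ({c | ¬ ∀ x ∈ O', Pt.pt c x ∈ G} ∪
        {c | ¬ ∀ x ∈ O r, Pt.pt c x ∈ W r}) := by
      by_contra hcon
      exact not_countable_univ (hcount.mono fun c _ => not_not.1 fun h => hcon ⟨c, h⟩)
    simp only [mem_union, mem_ofPred_eq, not_or, not_not] at hc
    exact ⟨Pt.pt c x, hc.1 x hxO', W r, mem_image_of_mem W hr, hc.2 x hxr⟩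
  let C : Set D := {c | ∃ x, Pt.pt c x ∈ F}
  have hclaim2 : C.Infinite → ∀ c ∉ N, ∀ x : K, ∃ n, Pt.pt c x ∈ closure (⋃₀ V1 n) := by
    intro hC c hc x
    by_contra hcon
    push Not at hcon
    have hsep : ∀ n, ∃ G : Set (Pt D K S), IsOpen G ∧ Pt.pt c x ∈ G ∧ G ∩ ⋃₀ V1 n = ∅ := by
      intro n
      have := hcon n
      rw [mem_closure_iff] at this
      push Not at this
      obtain ⟨G, hG, hxG, hGe⟩ := this
      exact ⟨G, hG, hxG, by simpa using hGe⟩
    choose G hG hxG hGe using hsep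
    obtain ⟨s, hCs, hs⟩ := hhit C hC x (fun n => {y | Pt.pt c y ∈ G n})
      (fun n => ⟨((isOpen_iff v t (G n)).1 (hG n)).1 c, hxG n⟩)
    have hsF : Pt.lim s ∈ F := by
      by_contra hsF
      have hopen : IsOpen Fᶜ := hF.isOpen_compl
      have h2 := (((isOpen_iff v t Fᶜ).1 hopen).2 s hsF).1
      obtain ⟨c', hc', hc''⟩ := (v s).nonempty_of_mem (Filter.inter_mem hCs h2)
      obtain ⟨y, hy⟩ := hc'
      exact hc'' y hy
    have h1 : t s ∈ closure (⋃ r ∈ T (nn s), O r) :=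
      hTd (nn s) s ⟨hsF, rfl⟩ (hsO s hsF)
    obtain ⟨y, hyG, hy⟩ := mem_closure_iff.1 h1 _
      (((isOpen_iff v t (G (nn s))).1 (hG (nn s))).1 c) (hs (nn s))
    simp only [mem_iUnion, exists_prop] at hy
    obtain ⟨r, hr, hyr⟩ := hy
    have hcr : ∀ x ∈ O r, Pt.pt c x ∈ W r := by
      by_contra hcr
      exact hc (mem_iUnion.2 ⟨nn s, mem_biUnion hr hcr⟩)
    have : Pt.pt c y ∈ G (nn s) ∩ ⋃₀ V1 (nn s) :=
      ⟨hyG, W r, mem_image_of_mem W hr, hcr y hyr⟩
    rw [hGe] at this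
    exact this
  -- the remaining fibres are compact
  have hfib : ∀ c : D, ∃ Uc : Set (Set (Pt D K S)), Uc.Countable ∧ Uc ⊆ U ∧
      ∀ x, Pt.pt c x ∈ F → Pt.pt c x ∈ ⋃₀ Uc := by
    intro c
    have hFc : IsCompact {x | Pt.pt c x ∈ F} := by
      apply IsClosed.isCompact
      have := ((isOpen_iff v t Fᶜ).1 hF.isOpen_compl).1 c
      rw [← isOpen_compl_iff]
      exact this
    obtain ⟨b, hbU, hbf, hb⟩ := hFc.elim_finite_subcover_image (b := U)
      (c := fun G => {x | Pt.pt c x ∈ G})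
      (fun G hG => ((isOpen_iff v t G).1 (hU G hG)).1 c)
      (fun x hx => by
        obtain ⟨G, hG, hxG⟩ := hcov hx
        exact mem_biUnion hG hxG)
    refine ⟨b, hbf.countable, hbU, fun x hx => ?_⟩
    have := hb hx
    simp only [mem_iUnion, exists_prop] at this
    obtain ⟨G, hG, hxG⟩ := this
    exact ⟨G, hG, hxG⟩
  choose Uc hUcc hUcU hUc using hfib
  let N' : Set D := N ∪ {c | c ∈ C ∧ C.Finite}
  have hN' : N'.Countable := by
    refine hN.union ?_
    by_cases hC : C.Finite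
    · exact hC.countable.mono fun c hc => hc.1
    · convert countable_empty
      ext c; simp [hC]
  let V2 : Set (Set (Pt D K S)) := ⋃ c ∈ N', Uc c
  have hV2 : V2.Countable := hN'.biUnion fun c _ => hUcc c
  refine ⟨fun n => V1 n ∪ (V2 ∩ Dn n), fun n => ⟨?_, ?_⟩, ?_⟩
  · rintro G (⟨s, hs, rfl⟩ | ⟨-, hG⟩)
    · have h := hTF n s hs
      have := hWD s h.1
      rwa [h.2] at this
    · exact hG
  · exact ((hTc n).image W).union (hV2.mono inter_subset_left)
  · rintro (⟨c, x⟩ | s) hz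
    · by_cases hc : c ∈ N'
      · obtain ⟨G, hG, hxG⟩ := hUc c x hz
        have hGU : G ∈ U := hUcU c hG
        rw [← hDn] at hGU
        obtain ⟨n, hn⟩ := mem_iUnion.1 hGU
        exact mem_iUnion.2 ⟨n, subset_closure ⟨G, Or.inr ⟨mem_biUnion hc hG, hn⟩, hxG⟩⟩
      · have hcN : c ∉ N := fun h => hc (Or.inl h)
        have hC : C.Infinite := fun h => hc (Or.inr ⟨⟨x, hz⟩, h⟩)
        obtain ⟨n, hn⟩ := hclaim2 hC c hcN x
        exact mem_iUnion.2 ⟨n, closure_mono (sUnion_subset_sUnion subset_union_left) hn⟩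
    · exact mem_iUnion.2 ⟨nn s,
        closure_mono (sUnion_subset_sUnion subset_union_left) (hclaim1 s hz)⟩

/-- The space does not have the property defining `pwL_c(X) ≤ κ` if `κ` is small. -/
lemma not_pwLc {Λ : Type} [Nonempty S] (κ : Cardinal.{0}) (hκ : #Λ * (κ * ℵ₀) < #D)
    (hctb : ∀ s, ∃ A ∈ v s, A.Countable) (p : K) (O : Λ → Set K) (hO : ∀ i, IsOpen (O i))
    (hp : ∀ i, p ∉ closure (O i)) (ht : ∀ s, ∃ i, t s ∈ O i) :
    ¬ @PwLcProperty (Pt D K S) (space v t) κ := by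
  classical
  let _ := space (K := K) v t
  intro hprop
  let Dec : Λ → Set (Set (Pt D K S)) := fun i =>
    {W | ∃ (s : S) (A : Set D), A ∈ v s ∧ A.Countable ∧ t s ∈ O i ∧ W = nb s A ∅ (O i)}
  have hcov : (univ : Set (Pt D K S)) ⊆ ⋃₀ (⋃ i, Dec i) := by
    rintro (⟨c, x⟩ | s) -
    · obtain ⟨s⟩ := ‹Nonempty S›
      obtain ⟨i, hi⟩ := ht s
      obtain ⟨A, hA, hAc⟩ := hctb s
      refine ⟨nb s (A ∪ {c}) ∅ (O i), mem_iUnion.2 ⟨i, s, A ∪ {c}, ?_, ?_, hi, rfl⟩, ?_⟩
      · exact Filter.mem_of_superset hA subset_union_left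
      · exact hAc.union (countable_singleton c)
      · exact pt_mem_nb.2 (Or.inl (Or.inr rfl))
    · obtain ⟨i, hi⟩ := ht s
      obtain ⟨A, hA, hAc⟩ := hctb s
      exact ⟨nb s A ∅ (O i), mem_iUnion.2 ⟨i, s, A, hA, hAc, hi, rfl⟩, lim_mem_nb.2 rfl⟩
  obtain ⟨V, hV, hVc⟩ := hprop univ isClosed_univ (⋃ i, Dec i) (by
    intro W hW
    obtain ⟨i, s, A, hA, -, hs, rfl⟩ := mem_iUnion.1 hW
    exact isOpen_nb v t s hA countable_empty (hO i) hs) hcov Λ Dec rfl
  have hch : ∀ (i : Λ) (W : V i), ∃ A : Set D, A.Countable ∧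
      ∀ c x, Pt.pt c x ∈ (W : Set (Pt D K S)) → c ∈ A ∨ x ∈ O i := by
    intro i W
    obtain ⟨s, A, hA, hAc, hs, hW⟩ := (hV i).1 W.2
    refine ⟨A, hAc, fun c x h => ?_⟩
    rw [hW, pt_mem_nb] at h
    rcases h with h | h
    · exact Or.inl h
    · exact Or.inr h.2
  choose A hAc hA using hch
  have hcard : #(⋃ i, ⋃ W : V i, A i W : Set D) < #D := by
    refine lt_of_le_of_lt ?_ hκ
    refine (mk_iUnion_le_sum_mk).trans ?_
    refine (sum_le_sum _ (fun _ => κ * ℵ₀) fun i => ?_).trans ?_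
    · refine (mk_iUnion_le_sum_mk).trans ?_
      refine (sum_le_sum _ (fun _ => ℵ₀) fun W => ?_).trans ?_
      · exact (hAc i W).le_aleph0
      · rw [sum_const']
        exact mul_le_mul_left (hV i).2 _
    · rw [sum_const']
  obtain ⟨c, hc⟩ : ∃ c, c ∉ (⋃ i, ⋃ W : V i, A i W : Set D) := by
    by_contra hcon
    push Not at hcon
    rw [eq_univ_of_forall hcon, mk_univ] at hcard
    exact lt_irrefl _ hcard
  obtain ⟨i, hi⟩ := mem_iUnion.1 (hVc (mem_univ (Pt.pt c p)))
  rw [mem_closure_iff] at hi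
  obtain ⟨z, hz, W, hW, hzW⟩ := hi (box c (closure (O i))ᶜ)
    (isOpen_box v t c isClosed_closure.isOpen_compl) ⟨p, hp i, rfl⟩
  obtain ⟨x, hx, rfl⟩ := hz
  rcases hA i ⟨W, hW⟩ c x hzW with h | h
  · exact hc (mem_iUnion.2 ⟨i, mem_iUnion.2 ⟨⟨W, hW⟩, h⟩⟩)
  · exact hx (subset_closure h)

end Space

/-! ### Injective choice functions -/

/-- If every `P j` has at least as many elements as the index type, then there is an injective
choice function. -/
lemma exists_injective_choice {J T : Type} (P : J → Set T) (hP : ∀ j, #J ≤ #(P j)) :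
    ∃ f : J → T, Function.Injective f ∧ ∀ j, f j ∈ P j := by
  classical
  obtain ⟨r, wo, hr⟩ := Cardinal.exists_ord_eq J
  have hseg : ∀ j, #{i // r i j} < #J := by
    intro j
    have := Cardinal.card_typein_lt (r := r) j hr
    rwa [Ordinal.card_typein] at this
  have hstep : ∀ (j : J) (g : {i // r i j} → T), ∃ a ∈ P j, ∀ i, g i ≠ a := by
    intro j g
    by_contra hcon
    push Not at hcon
    have h1 : P j ⊆ range g := fun a ha => by
      obtain ⟨i, hi⟩ := hcon a ha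
      exact ⟨i, hi⟩
    have h2 : #(P j) ≤ #{i // r i j} := (mk_le_mk_of_subset h1).trans mk_range_le
    exact absurd ((hP j).trans h2) (not_le.2 (hseg j))
  choose F hF hF' using hstep
  let f : J → T := wo.wf.fix fun j g => F j fun i => g i.1 i.2
  have hf : ∀ j, f j = F j fun i : {i // r i j} => f i.1 := by
    intro j
    exact wo.wf.fix_eq _ j
  have hlt : ∀ i j, r i j → f i ≠ f j := by
    intro i j hij
    have := hF' j (fun i : {i // r i j} => f i.1) ⟨i, hij⟩
    rw [← hf j] at this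
    exact this
  refine ⟨f, ?_, fun j => by rw [hf j]; exact hF j _⟩
  intro i j hij
  by_contra hne
  exact hne (wo.trichotomous i j (fun h => hlt i j h hij) (fun h => hlt j i h hij.symm))

/-! ### The concrete ingredients -/

/-- The Cantor set, used as an index set. -/
abbrev La : Type := ℕ → Bool

/-- The compact separable space `2 ^ La`. -/
abbrev Ka : Type := La → Bool

lemma exists_finset_of_isOpen {O : Set Ka} (hO : IsOpen O) {x : Ka} (hx : x ∈ O) :
    ∃ E : Finset La, ∀ y : Ka, (∀ i ∈ E, y i = x i) → y ∈ O := by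
  obtain ⟨E, u, hu, hE⟩ := isOpen_pi_iff.1 hO x hx
  refine ⟨E, fun y hy => hE ?_⟩
  intro i hi
  rw [hy i hi]
  exact (hu i hi).2

lemma exists_level (E : Finset La) :
    ∃ n : ℕ, ∀ i ∈ E, ∀ j ∈ E, (∀ k < n, i k = j k) → i = j := by
  classical
  have hpair : ∀ i j : La, ∃ n : ℕ, (∀ k < n, i k = j k) → i = j := by
    intro i j
    by_cases hij : i = j
    · exact ⟨0, fun _ => hij⟩
    · obtain ⟨k, hk⟩ := Function.ne_iff.1 hij
      exact ⟨k + 1, fun h => absurd (h k (Nat.lt_succ_self k)) hk⟩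
  choose m hm using hpair
  refine ⟨(E ×ˢ E).sup fun q => m q.1 q.2, fun i hi j hj h => hm i j fun k hk => h k ?_⟩
  exact lt_of_lt_of_le hk (Finset.le_sup (f := fun q : La × La => m q.1 q.2)
    (Finset.mk_mem_product hi hj))

instance : SeparableSpace Ka := by
  classical
  let e : (Σ n : ℕ, ((Fin n → Bool) → Bool)) → Ka := fun q x => q.2 fun i => x i
  refine ⟨range e, countable_range e, ?_⟩
  rw [dense_iff_inter_open]
  rintro O hO ⟨x, hx⟩
  obtain ⟨E, hE⟩ := exists_finset_of_isOpen hO hx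
  obtain ⟨n, hn⟩ := exists_level E
  let h : (Fin n → Bool) → Bool := fun w => decide (∃ i ∈ E, (∀ k : Fin n, i k = w k) ∧ x i = true)
  refine ⟨e ⟨n, h⟩, hE _ fun j hj => ?_, mem_range_self _⟩
  have hiff : (∃ i ∈ E, (∀ k : Fin n, i k = j k) ∧ x i = true) ↔ x j = true := by
    constructor
    · rintro ⟨i, hi, hij, hxi⟩
      have : i = j := hn i hi j hj fun k hk => hij ⟨k, hk⟩
      rwa [← this]
    · intro hxj
      exact ⟨j, hj, fun k => rfl, hxj⟩
  change decide (∃ i ∈ E, (∀ k : Fin n, i k = j k) ∧ x i = true) = x j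
  cases hxj : x j
  · rw [decide_eq_false_iff_not, hiff, hxj]
    simp
  · rw [decide_eq_true_iff, hiff, hxj]

lemma mk_La : #La = 𝔠 := by simp [La]

lemma mk_Ka : #Ka = 2 ^ 𝔠 := by
  simp [Ka]

lemma exists_not_mem_range (E : ℕ → La) : ∃ i, i ∉ range E := by
  by_contra hcon
  push Not at hcon
  have h1 : (univ : Set La) ⊆ range E := fun i _ => hcon i
  have h2 : #La ≤ ℵ₀ := by
    rw [← mk_univ]
    exact (mk_le_mk_of_subset h1).trans (countable_range E).le_aleph0
  rw [mk_La] at h2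
  exact absurd h2 (not_le.2 aleph0_lt_continuum)

lemma mk_agree (E : ℕ → La) (x : Ka) :
    #Ka ≤ #{y : Ka | (∀ n, y (E n) = x (E n)) ∧ y ≠ fun _ => false} := by
  classical
  obtain ⟨i₀, hi₀⟩ := exists_not_mem_range E
  let R : Set La := (range E ∪ {i₀})ᶜ
  have hR : #R = #La := by
    apply mk_compl_of_infinite
    rw [mk_La]
    exact lt_of_le_of_lt ((countable_range E).union (countable_singleton i₀)).le_aleph0
      aleph0_lt_continuum
  have h1 : #Ka = #(R → Bool) := by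
    simp [Ka, hR]
  rw [h1]
  let g : (R → Bool) → Ka := fun w i => if h : i ∈ R then w ⟨i, h⟩ else if i = i₀ then true else x i
  have hg : ∀ w, g w ∈ {y : Ka | (∀ n, y (E n) = x (E n)) ∧ y ≠ fun _ => false} := by
    intro w
    refine ⟨fun n => ?_, fun h => ?_⟩
    · have h1 : E n ∉ R := fun h => h (Or.inl (mem_range_self n))
      have h2 : E n ≠ i₀ := fun h => hi₀ (h ▸ mem_range_self n)
      simp [g, h1, h2]
    · have h1 : i₀ ∉ R := fun h => h (Or.inr rfl)
      have := congrFun h i₀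
      simp [g, h1] at this
  refine mk_le_of_injective (f := fun w => ⟨g w, hg w⟩) ?_
  intro w w' hww
  have hww' : g w = g w' := congrArg Subtype.val hww
  ext ⟨i, hi⟩
  have := congrFun hww' i
  simpa [g, hi] using this

/-- The index set of the extra points. -/
abbrev Sa : Type := (ℕ ↪ Ka) × (ℕ → La) × Ka

lemma mk_Sa : #Sa ≤ #Ka := by
  have hinf : ℵ₀ ≤ (2 : Cardinal.{0}) ^ 𝔠 :=
    (aleph0_le_continuum).trans (cantor _).le
  have h1 : #(ℕ ↪ Ka) ≤ 2 ^ 𝔠 := by
    calc #(ℕ ↪ Ka) ≤ #(ℕ → Ka) := mk_embedding_le_arrow ℕ Ka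
      _ = 2 ^ 𝔠 := by
        rw [← power_def, mk_Ka, mk_nat, ← power_mul, continuum_mul_aleph0]
  have h2 : #(ℕ → La) ≤ 2 ^ 𝔠 := by
    calc #(ℕ → La) = 𝔠 := by
          rw [← power_def, mk_La, mk_nat, continuum_power_aleph0]
      _ ≤ 2 ^ 𝔠 := (cantor _).le
  calc #Sa = #(ℕ ↪ Ka) * (#(ℕ → La) * #Ka) := by simp [Sa]
    _ ≤ 2 ^ 𝔠 * (2 ^ 𝔠 * 2 ^ 𝔠) := by
        gcongr
        exact mk_Ka.le
    _ = #Ka := by
        rw [mul_eq_self hinf, mul_eq_self hinf, mk_Ka]

instance : Nonempty Sa := by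
  have : Infinite Ka := by
    rw [infinite_iff, mk_Ka]
    exact (aleph0_le_continuum).trans (cantor _).le
  exact ⟨⟨Infinite.natEmbedding Ka, fun _ _ => false, fun _ => false⟩⟩

instance : Uncountable Ka := by
  rw [← aleph0_lt_mk_iff, mk_Ka]
  exact aleph0_lt_continuum.trans (cantor _)

/-- For every point `y` of `Ka` there is a free ultrafilter on `ℕ` which, transported along a
dense sequence, converges to `y`. -/
lemma exists_ultrafilter : ∃ u : Ka → Ultrafilter ℕ, Function.Injective u ∧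
    ∀ y n, {n}ᶜ ∈ u y := by
  classical
  let e : ℕ → Ka := denseSeq Ka
  have hne : ∀ y : Ka, (Filter.comap e (𝓝[≠] y)).NeBot := by
    intro y
    rw [Filter.comap_neBot_iff]
    intro G hG
    obtain ⟨O, hO, hyO, hOG⟩ := mem_nhdsWithin.1 hG
    obtain ⟨E, hE⟩ := exists_finset_of_isOpen hO hyO
    obtain ⟨i, hi⟩ : ∃ i, i ∉ E := by
      have : Infinite La := inferInstance
      exact Infinite.exists_notMem_finset E
    have hnonempty : (O ∩ {y}ᶜ).Nonempty := by
      refine ⟨Function.update y i (!(y i)), hE _ fun j hj => ?_, fun h => ?_⟩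
      · rw [Function.update_of_ne]
        rintro rfl
        exact hi hj
      · have := congrFun (mem_singleton_iff.1 h) i
        simp at this
    obtain ⟨z, hz, n, rfl⟩ := (denseRange_denseSeq Ka).inter_open_nonempty _
      (hO.inter isOpen_compl_singleton) hnonempty
    exact ⟨n, hOG hz⟩
  refine ⟨fun y => @Ultrafilter.of ℕ (Filter.comap e (𝓝[≠] y)) (hne y), ?_, ?_⟩
  · intro y z hyz
    have hy : Filter.Tendsto e (@Ultrafilter.of ℕ (Filter.comap e (𝓝[≠] y)) (hne y) : Filter ℕ)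
        (𝓝 y) :=
      (Filter.tendsto_iff_comap.2 (@Ultrafilter.of_le ℕ _ (hne y))).mono_right nhdsWithin_le_nhds
    have hz : Filter.Tendsto e (@Ultrafilter.of ℕ (Filter.comap e (𝓝[≠] z)) (hne z) : Filter ℕ)
        (𝓝 z) :=
      (Filter.tendsto_iff_comap.2 (@Ultrafilter.of_le ℕ _ (hne z))).mono_right nhdsWithin_le_nhds
    have hyz' : (@Ultrafilter.of ℕ (Filter.comap e (𝓝[≠] y)) (hne y)) =
      (@Ultrafilter.of ℕ (Filter.comap e (𝓝[≠] z)) (hne z)) := hyz
    rw [← hyz'] at hz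
    exact tendsto_nhds_unique hy hz
  · intro y n
    have h1 : ({e n}ᶜ : Set Ka) ∈ 𝓝[≠] y := by
      by_cases h : e n = y
      · rw [h]; exact self_mem_nhdsWithin
      · exact mem_nhdsWithin_of_mem_nhds (isOpen_compl_singleton.mem_nhds (Ne.symm h))
    have h2 : e ⁻¹' {e n}ᶜ ∈ Filter.comap e (𝓝[≠] y) := Filter.preimage_mem_comap h1
    refine Filter.mem_of_superset ((@Ultrafilter.of_le ℕ _ (hne y)) h2) ?_
    intro m hm hmn
    rw [mem_singleton_iff] at hmn
    subst hmn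
    exact hm rfl

lemma exists_v : ∃ v : Sa → Ultrafilter Ka, Function.Injective v ∧
    (∀ s, range s.1 ∈ v s) ∧ ∀ s c, {c}ᶜ ∈ v s := by
  obtain ⟨u, hu, hu'⟩ := exists_ultrafilter
  obtain ⟨v, hv, hvP⟩ := exists_injective_choice (J := Sa) (T := Ultrafilter Ka)
    (fun s => range fun y => (u y).map s.1) (by
      intro s
      refine mk_Sa.trans ?_
      rw [mk_range_eq]
      intro y z hyz
      apply hu
      apply Ultrafilter.coe_injective
      have := congrArg (fun w : Ultrafilter Ka => (w : Filter Ka)) hyz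
      simp only [Ultrafilter.coe_map] at this
      exact Filter.map_injective s.1.injective this)
  refine ⟨v, hv, fun s => ?_, fun s c => ?_⟩
  · obtain ⟨y, hy⟩ := hvP s
    rw [← hy]
    change range s.1 ∈ Filter.map s.1 (u y)
    exact Filter.range_mem_map
  · obtain ⟨y, hy⟩ := hvP s
    rw [← hy]
    change {c}ᶜ ∈ Filter.map s.1 (u y)
    rw [Filter.mem_map]
    by_cases hc : ∃ n, s.1 n = c
    · obtain ⟨n, rfl⟩ := hc
      refine Filter.mem_of_superset (hu' y n) ?_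
      intro m hm hmn
      exact hm (s.1.injective hmn)
    · convert Filter.univ_mem
      ext m
      simp only [mem_preimage, mem_compl_iff, mem_singleton_iff, mem_univ, iff_true]
      exact fun h => hc ⟨m, h⟩

lemma exists_t : ∃ t : Sa → Ka, Function.Injective t ∧
    ∀ s, (∀ n, t s (s.2.1 n) = s.2.2 (s.2.1 n)) ∧ t s ≠ fun _ => false := by
  obtain ⟨t, ht, htP⟩ := exists_injective_choice (J := Sa) (T := Ka)
    (fun s => {y : Ka | (∀ n, y (s.2.1 n) = s.2.2 (s.2.1 n)) ∧ y ≠ fun _ => false})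
    (fun s => mk_Sa.trans (mk_agree s.2.1 s.2.2))
  exact ⟨t, ht, htP⟩

/-- There is a Hausdorff strict quasi-Lindelöf space `X` with `pwL_c(X)` larger than the
continuum, in particular with `pwL_c(X) > ℵ₀`. -/
theorem exists_hausdorff_example : ∃ (X : Type) (_ : TopologicalSpace X),
    T2Space X ∧ StrictQuasiLindelof X ∧ 𝔠 < pwLc X := by
  classical
  obtain ⟨v, hv, hvr, hvf⟩ := exists_v
  obtain ⟨t, ht, htP⟩ := exists_t
  have hctb : ∀ s, ∃ A ∈ v s, A.Countable := fun s => ⟨range s.1, hvr s, countable_range _⟩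
  refine ⟨Pt Ka Ka Sa, space v t, t2 v t hv ht hvf hctb, sql v t ?_, ?_⟩
  · intro C hC x O hO
    have hfin : ∀ n, ∃ E : Finset La, ∀ y : Ka, (∀ i ∈ E, y i = x i) → y ∈ O n :=
      fun n => exists_finset_of_isOpen (hO n).1 (hO n).2
    choose E hE using hfin
    have hcount : ((⋃ n, (E n : Set La)) ∪ {fun _ => false}).Countable :=
      (countable_iUnion fun n => (E n).countable_toSet).union (countable_singleton _)
    obtain ⟨e, he⟩ := hcount.exists_eq_range ⟨_, Or.inr rfl⟩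
    let a : ℕ ↪ Ka := (hC.natEmbedding C).trans (Function.Embedding.subtype _)
    refine ⟨(a, e, x), ?_, fun n => hE n _ fun i hi => ?_⟩
    · refine Filter.mem_of_superset (hvr (a, e, x)) ?_
      rintro _ ⟨n, rfl⟩
      exact (hC.natEmbedding C n).2
    · have : i ∈ range e := by
        rw [← he]
        exact Or.inl (mem_iUnion.2 ⟨n, hi⟩)
      obtain ⟨m, rfl⟩ := this
      exact (htP (a, e, x)).1 m
  · let _ := space v t
    apply lt_pwLc
    refine not_pwLc (Λ := La) v t 𝔠 ?_ hctb (fun _ => false) (fun i => {x | x i = true}) ?_ ?_ ?_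
    · rw [mk_La, mk_Ka, continuum_mul_aleph0, continuum_mul_self]
      exact cantor _
    · intro i
      have hcont : Continuous fun x : Ka => x i := continuous_apply i
      exact (isOpen_discrete ({true} : Set Bool)).preimage hcont
    · intro i
      have hcont : Continuous fun x : Ka => x i := continuous_apply i
      have hcl : IsClosed {x : Ka | x i = true} :=
        (isClosed_discrete ({true} : Set Bool)).preimage hcont
      rw [hcl.closure_eq]
      simp
    · intro s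
      obtain ⟨i, hi⟩ := Function.ne_iff.1 (htP s).2
      exact ⟨i, by simpa using hi⟩

end Pool.Agent.Lib_MP_a1e9e0_gt
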